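import Pool.Agent.helper12.KZ.Fin

/-!
# Subexponential bounds or common divisors of the alternating sums imply Dade's invariant conjecture

`p` is a prime and `M` a maximal ideal of the ring of algebraic integers which contains `p`. `Dade p M` is Dade's invariant
conjecture for `p`. The theorem says that it is equivalent to a very weak condition on the cases in which `E / G` is an
alternating group of degree at least `m₀`, `U = E / G`, the block `B` is `E`-stable and `d` is a multiple of `N`: for arbitrarily
small `c > 0` and for some defect in every sequence `D₀, 2 D₀, 3 D₀, …` the alternating sums for the blocks of this defect are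
all smaller than `exp (c d(B))`, or they are all divisible by some integer `n ≥ 2`.

In particular the conjecture for `p` is equivalent to the congruences of these sums modulo one prime `l`; `l = p` is allowed.

Sketch of the proof. Main theorem: let `l` be a prime and `A` a finite group without normal subgroup of index `l`. If `l` divides
all alternating sums with `E / G = A = U` and `d ≥ 1`, then all these sums vanish. Let `l ^ k`, `k ≥ 1`, divide all these sums; we
show that `l ^ (k + 1)` divides them. Let `F e` be the alternating sum for the given `G`, `E`, `B` and `d = e`, `B` stable and of
positive defect. Let `H` be the wreath product of `G` with the cyclic group `C_l`, and `Γ` the group of all elements of the wreath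
product of `E` with `C_l` with components in the same coset of `G`; so `Γ / H = A` and `Γ / G ^ l = A × C_l`. Count, for the chains
`C` of `p`-subgroups of `H` with smallest term `1`, the characters of `N_H(C)` over `B ⊗ ... ⊗ B` which are invariant under `N_Γ(C)`.

* Chains of subgroups of `G ^ l`: by Clifford theory the characters which are counted correspond to the characters `ψ` of
  the normaliser in `G ^ l` whose stabiliser in `A × C_l` is mapped onto `A`, and it is `A × 1` or `A × C_l` (if it is `A × C_l`
  all extensions of `ψ` are invariant, because `A` has no normal subgroup of index `l`). With the right weights they count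
  `1` and `l ^ 2`. This gives `(sum over e₁ + ... + e_l = d of the products of the F eᵢ) - F (d / l) + l ^ 2 F (d' / l)`, where
  `d' = d` if `l ≠ p` and `d' = d - 1` if `l = p`, and `F x = 0` if `x` is not an integer.
* The other chains exist only for `l = p`. By a cancellation only those with second term `Q`, `Q ∩ G ^ p = 1`, remain; they give
  `p ^ 2` times alternating sums for the group `C_{G ^ p}(Q)` and an extension with quotient `A`.
* The total is `l` times a sum of alternating sums for blocks of `H` and `Γ / H = A`, so it is divisible by `l ^ (k + 1)`. For
  `l d` in place of `d` all terms other than `F d` are divisible by `l ^ (k + 1)` (`k l ≥ k + 1`), so `F d` is.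

If the conjecture fails for `p` then it fails for `E / G = U` an alternating group `A` of large degree, and the sums grow
exponentially along the multiples of some defect (wreath products and products, as in the previous form of this criterion).
By the main theorem for every prime `l` some alternating sum with `E / G = U = A` is not divisible by `l`; for all but finitely
many `l` one can take the same sum. Powers of these cases give, for all multiples of one `D₀` and all `l`, sums which are not
divisible by `l`.
-/

set_option autoImplicit false

open Pool.Agent.helper58.DC

namespace Pool.Agent.Results.MP_baa4d7_al.CommonDivisorCriterion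

theorem result (p : ℕ) (hp : p.Prime) (M : Ideal (integralClosure ℤ ℂ)) (hM : M.IsMaximal)
    (hpM : (p : integralClosure ℤ ℂ) ∈ M) (N m₀ : ℕ) (hN : 1 ≤ N) :
    Dade p M ↔
      ∀ c : ℝ, 0 < c → ∀ D₀ : ℕ, 1 ≤ D₀ → ∃ k : ℕ, 1 ≤ k ∧
        ((∀ m ≥ m₀, ∀ (G E : Type) [Group G] [Group E] [Finite G] [Finite E]
            (X : Extension G E (alternatingGroup (Fin m))),
            IsOp p (⊤ : Subgroup G) ⊥ → ∀ χ ∈ Irr G,
            (∀ e : E, Induces M (funMap (X.act e) χ) χ) →
            BlockDefect p M χ (k * D₀) →
            ∀ d : ℤ, (N : ℤ) ∣ d →
              (altSum X p M χ d ⊤ : ℝ) < Real.exp (c * ((k * D₀ : ℕ) : ℝ))) ∨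
          ∃ n : ℤ, 2 ≤ n ∧ ∀ m ≥ m₀, ∀ (G E : Type) [Group G] [Group E] [Finite G] [Finite E]
            (X : Extension G E (alternatingGroup (Fin m))),
            IsOp p (⊤ : Subgroup G) ⊥ → ∀ χ ∈ Irr G,
            (∀ e : E, Induces M (funMap (X.act e) χ) χ) →
            BlockDefect p M χ (k * D₀) →
            ∀ d : ℤ, (N : ℤ) ∣ d → n ∣ altSum X p M χ d ⊤) :=
  Pool.Agent.KZ.Fin_main p hp M hM hpM N m₀ hN

end Pool.Agent.Results.MP_baa4d7_al.CommonDivisorCriterion
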