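import Pool.Agent.helper12.DD.Main

/-!
# Dade's invariant conjecture (MP_baa4d7_al): a growth criterion
-/

set_option autoImplicit false

open Pool.Agent.helper49.Blk Pool.Agent.DD

namespace Pool.Agent.Results.MP_baa4d7_al.DadeGrowth

/-- For a prime `p`: Dade's invariant conjecture holds for `p` if and only if (1) for every case the
sum over all `d` of the alternating sums vanishes, and (2) the alternating sums are bounded above by
a subexponential function of the defect of the block: for every `c > 0` they are less than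
`exp(c * defect)` for all blocks of sufficiently large defect. -/
theorem result (p : ℕ) (hp : p.Prime) (M : Ideal (integralClosure ℤ ℂ)) (_ : M.IsMaximal)
    (_ : (p : integralClosure ℤ ℂ) ∈ M) :
    Dade p M ↔
      (∀ (X : Case p M) (T : Finset (List (Subgroup X.G))), Trans p T →
        ∑ᶠ d : ℕ, altT p M X.ι X.χ T d X.U = 0) ∧
      ∀ c : ℝ, 0 < c → ∃ N : ℕ, ∀ (X : Case p M) (T : Finset (List (Subgroup X.G))), Trans p T →
        ∀ d : ℕ, N ≤ X.defect → (altT p M X.ι X.χ T d X.U : ℝ) < Real.exp (c * X.defect) := by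
  haveI : Fact p.Prime := ⟨hp⟩
  rw [main_iff]
  constructor
  · rintro ⟨h1, h2⟩
    refine ⟨fun X T hT => ?_, fun c hc => ?_⟩
    · simp_rw [X.alt_indep T hT]
      exact h1 X
    · obtain ⟨N, hN⟩ := h2 c hc
      refine ⟨N, fun X T hT d hd => ?_⟩
      rw [X.alt_indep T hT]
      exact hN X d hd
  · rintro ⟨h1, h2⟩
    refine ⟨fun X => ?_, fun c hc => ?_⟩
    · obtain ⟨T, hT⟩ := all_TRE X.G p
      have := h1 X T hT
      simp_rw [X.alt_indep T hT] at this
      exact this
    · obtain ⟨N, hN⟩ := h2 c hc
      refine ⟨N, fun X d hd => ?_⟩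
      obtain ⟨T, hT⟩ := all_TRE X.G p
      rw [← X.alt_indep T hT]
      exact hN X T hT d hd

end Pool.Agent.Results.MP_baa4d7_al.DadeGrowth
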