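import Pool.Agent.helper58.DC.All4

/-!
# A one-sided subexponential bound for simple quotients implies Dade's invariant conjecture

`p` is a prime and `M` a maximal ideal of the ring of algebraic integers which contains `p`.
`Dade p M` is Dade's invariant conjecture for `p`. The theorem says that it is equivalent to a
very weak upper bound in a very special case: for arbitrarily small `c > 0` and for some defect in
every sequence `D₀, 2 D₀, 3 D₀, …` the alternating sums are smaller than `exp (c d(B))` if
`d(B)` is this defect, `E / G` is an alternating group of degree at least `m₀`, `U = E / G`, the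
block `B` is `E`-stable and `d` is a multiple of `N`.
-/

set_option autoImplicit false

open Pool.Agent.helper58.DC

namespace Pool.Agent.Results.MP_baa4d7_al.SubexponentialCriterion

theorem result (p : ℕ) (hp : p.Prime) (M : Ideal (integralClosure ℤ ℂ)) (hM : M.IsMaximal)
    (hpM : (p : integralClosure ℤ ℂ) ∈ M) (N m₀ : ℕ) (hN : 1 ≤ N) :
    Dade p M ↔
      ∀ c : ℝ, 0 < c → ∀ D₀ : ℕ, 1 ≤ D₀ → ∃ k : ℕ, 1 ≤ k ∧
        ∀ m ≥ m₀, ∀ (G E : Type) [Group G] [Group E] [Finite G] [Finite E]
          (X : Extension G E (alternatingGroup (Fin m))),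
          IsOp p (⊤ : Subgroup G) ⊥ → ∀ χ ∈ Irr G,
          (∀ e : E, Induces M (funMap (X.act e) χ) χ) →
          BlockDefect p M χ (k * D₀) →
          ∀ d : ℤ, (N : ℤ) ∣ d →
            (altSum X p M χ d ⊤ : ℝ) < Real.exp (c * ((k * D₀ : ℕ) : ℝ)) :=
  All4.dFG p N m₀ hp hN M hM hpM

end Pool.Agent.Results.MP_baa4d7_al.SubexponentialCriterion
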